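import Pool.Agent.H94.C1.Targets

/-!
Board c1_modules, module RES: the kernel inequality at frequency `λ` and time one.
-/

set_option autoImplicit false

namespace Pool.Agent.H90.C1

open MeasureTheory Set Pool.Agent.H82.KL Pool.Agent.H94.C1
open scoped ENNReal NNReal SchwartzMap

section

variable {d : ℕ}

theorem lintegral_smul (r : ℝ) (hr : 0 < r) (G : EE d → ℝ≥0∞) :
    ∫⁻ x, G (r • x) = ENNReal.ofReal (r ^ (-(d : ℝ))) * ∫⁻ x, G x := by
  have h1 := Measure.map_addHaar_smul (volume : Measure (EE d)) hr.ne'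
  have h2 : MeasurableEmbedding (fun x : EE d => r • x) :=
    (measurableEmbedding_const_smul₀ hr.ne')
  have h3 := h2.lintegral_map (μ := (volume : Measure (EE d))) G
  have h4 : Measure.map (fun x : EE d => r • x) volume =
      ENNReal.ofReal |(r ^ Module.finrank ℝ (EE d))⁻¹| • (volume : Measure (EE d)) := h1
  rw [← h3, h4, lintegral_smul_measure, smul_eq_mul]
  congr 2
  rw [finrank_euclideanSpace, Fintype.card_fin, abs_of_pos (by positivity),
    Real.rpow_neg hr.le, Real.rpow_natCast]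

theorem lintegral_mul (r : ℝ) (hr : 0 < r) (H : ℝ → ℝ≥0∞) :
    ∫⁻ t in Icc (1 : ℝ) 2, H (r * t) = ENNReal.ofReal (r ^ (-1 : ℝ)) *
      ∫⁻ t in Icc r (2 * r), H t := by
  have h1 := Measure.map_addHaar_smul (volume : Measure ℝ) hr.ne'
  have h2 : MeasurableEmbedding (fun x : ℝ => r • x) :=
    (measurableEmbedding_const_smul₀ hr.ne')
  have h3 := h2.lintegral_map (μ := (volume : Measure ℝ)) ((Icc r (2 * r)).indicator H)
  have h4 : Measure.map (fun x : ℝ => r • x) volume =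
      ENNReal.ofReal |(r ^ Module.finrank ℝ ℝ)⁻¹| • (volume : Measure ℝ) := h1
  rw [h4, lintegral_smul_measure, smul_eq_mul] at h3
  rw [← lintegral_indicator measurableSet_Icc, ← lintegral_indicator measurableSet_Icc]
  have h5 : ∀ t : ℝ, (Icc (1 : ℝ) 2).indicator (fun t => H (r * t)) t =
      (Icc r (2 * r)).indicator H (r • t) := by
    intro t
    have h6 : t ∈ Icc (1 : ℝ) 2 ↔ r • t ∈ Icc r (2 * r) := by
      rw [smul_eq_mul, mem_Icc, mem_Icc]
      constructor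
      · rintro ⟨h7, h8⟩
        constructor <;> nlinarith
      · rintro ⟨h7, h8⟩
        constructor
        · by_contra hcon
          push Not at hcon
          nlinarith
        · by_contra hcon
          push Not at hcon
          nlinarith
    by_cases h7 : t ∈ Icc (1 : ℝ) 2
    · rw [indicator_of_mem h7, indicator_of_mem (h6.1 h7), smul_eq_mul]
    · rw [indicator_of_notMem h7, indicator_of_notMem (fun h8 => h7 (h6.2 h8))]
  simp only [h5]
  rw [← h3]
  congr 2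
  rw [Module.finrank_self, pow_one, abs_of_pos (by positivity), Real.rpow_neg_one]

/-- the rescaled kernel is at most the Riesz kernel -/
theorem wt_le (lam : ℝ) (hl : 0 < lam) (z : EE d) :
    ENNReal.ofReal (lam ^ 2) * wt (lam • z) ≤ (‖z‖ₑ ^ 2)⁻¹ := by
  by_cases hz : z = 0
  · rw [hz, enorm_zero]
    simp
  · have hz0 : 0 < ‖z‖ := norm_pos_iff.2 hz
    unfold wt
    rw [← ENNReal.ofReal_mul (by positivity), ← ofReal_norm, ← ENNReal.ofReal_pow (norm_nonneg _),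
      ← ENNReal.ofReal_inv_of_pos (by positivity)]
    refine ENNReal.ofReal_le_ofReal ?_
    rw [norm_smul, Real.norm_of_nonneg hl.le]
    have h1 : 0 < lam ^ 2 := by positivity
    have h2 : 0 < ‖z‖ ^ 2 := by positivity
    rw [mul_one_div, mul_pow, div_le_iff₀ (by positivity), ← div_eq_inv_mul,
      le_div_iff₀ h2]
    nlinarith

theorem ka_le (lam : ℝ) (hl : 0 < lam) (g : EE d → ℝ≥0∞) (x : EE d) :
    ka lam (fun y => g (lam⁻¹ • y)) (lam • x) ≤
      ENNReal.ofReal (lam ^ (d : ℝ)) * k2 g x := by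
  unfold ka k2
  have h1 := lintegral_smul (lam⁻¹) (inv_pos.2 hl) (fun y : EE d =>
    g y * (ENNReal.ofReal (lam ^ 2) * wt (lam • x - lam • y)))
  have h2 : ∀ y : EE d, lam • (lam⁻¹ • y) = y := fun y => by
    rw [smul_smul, mul_inv_cancel₀ hl.ne', one_smul]
  simp only [h2] at h1
  rw [h1, Real.inv_rpow hl.le, Real.rpow_neg hl.le, inv_inv]
  refine mul_le_mul' le_rfl (lintegral_mono fun y => ?_)
  refine mul_le_mul' le_rfl ?_
  rw [← smul_sub]
  exact wt_le lam hl (x - y)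

end

/-- RES: kernel inequality at frequency `λ` and time one -/
theorem pf_RES (hK : T_KIS) (hS : T_SCL) : T_RES := by
  intro d p a hd hp ha
  obtain ⟨C, hC⟩ := hK d p a hd hp ha
  refine ⟨C, fun lam ε u hl hε => ?_⟩
  have hl0 : 0 < lam := by linarith
  have hp0 : 0 < p := by linarith
  have hp2 : 0 < p - 2 := by linarith
  set f : EE d → ℂ := fun y => u (lam⁻¹ • y) with hf
  have hfu : ∀ x, f (lam • x) = u x := by
    intro x
    rw [hf]
    simp only
    rw [smul_smul, inv_mul_cancel₀ hl0.ne', one_smul]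
  have hBM : BM f := by
    refine ⟨?_, ?_⟩
    · have : Continuous f := u.continuous.comp (continuous_const_smul _)
      exact this.measurable
    · obtain ⟨B, hB⟩ := u.decay 0 0
      refine ⟨B, fun y => ?_⟩
      have := hB.2 (lam⁻¹ • y)
      simpa using this
  have h1 := hC lam ε f hl hε hBM
  -- the left side
  have h2 : ∫⁻ t in Icc (1 : ℝ) 2, ∫⁻ x : EE d, ‖HP a ε lam t u x‖ₑ ^ p =
      ENNReal.ofReal (lam ^ (-(d : ℝ) - 1)) *
        ∫⁻ t in Icc lam (2 * lam), ∫⁻ x : EE d, ‖W a f (x, ε * t)‖ₑ ^ p := by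
    have h3 : ∀ t : ℝ, ∫⁻ x : EE d, ‖HP a ε lam t u x‖ₑ ^ p =
        ENNReal.ofReal (lam ^ (-(d : ℝ))) * ∫⁻ x : EE d, ‖W a f (x, ε * (lam * t))‖ₑ ^ p := by
      intro t
      rw [← lintegral_smul lam hl0]
      refine lintegral_congr fun x => ?_
      rw [hS d a ε lam t u x ha hl0]
    simp only [h3]
    rw [lintegral_const_mul' _ _ ENNReal.ofReal_ne_top,
      lintegral_mul lam hl0 (fun t => ∫⁻ x : EE d, ‖W a f (x, ε * t)‖ₑ ^ p), ← mul_assoc,
      ← ENNReal.ofReal_mul (by positivity), ← Real.rpow_add hl0]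
    rfl
  -- the change of variables on the right side
  have hcv : ∀ G : EE d → ℝ≥0∞, ∫⁻ x, G x =
      ENNReal.ofReal (lam ^ (d : ℝ)) * ∫⁻ x, G (lam • x) := by
    intro G
    rw [lintegral_smul lam hl0 G, ← mul_assoc, ← ENNReal.ofReal_mul (by positivity),
      ← Real.rpow_add hl0, add_neg_cancel, Real.rpow_zero, ENNReal.ofReal_one, one_mul]
  rw [h2]
  refine (mul_le_mul' le_rfl h1).trans ?_
  unfold KK
  split_ifs with h3
  · have h4 : ∫⁻ x, ‖f x‖ₑ ^ 2 * ka lam (fun y => ‖f y‖ₑ) x ^ (p - 2) ≤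
        ENNReal.ofReal (lam ^ ((d : ℝ) + d * (p - 2))) *
          ∫⁻ x, ‖u x‖ₑ ^ 2 * (k2 (fun y => ‖u y‖ₑ) x) ^ (p - 2) := by
      rw [hcv, Real.rpow_add hl0, ENNReal.ofReal_mul (by positivity), mul_assoc]
      refine mul_le_mul' le_rfl ?_
      rw [← lintegral_const_mul' _ _ ENNReal.ofReal_ne_top]
      refine lintegral_mono fun x => ?_
      simp only
      rw [hfu]
      have h5 := ka_le lam hl0 (fun y => ‖u y‖ₑ) x
      calc ‖u x‖ₑ ^ 2 * ka lam (fun y => ‖f y‖ₑ) (lam • x) ^ (p - 2)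
          ≤ ‖u x‖ₑ ^ 2 * (ENNReal.ofReal (lam ^ (d : ℝ)) * k2 (fun y => ‖u y‖ₑ) x) ^ (p - 2) :=
            mul_le_mul' le_rfl (ENNReal.rpow_le_rpow h5 hp2.le)
        _ = _ := by
            rw [ENNReal.mul_rpow_of_nonneg _ _ hp2.le,
              ENNReal.ofReal_rpow_of_pos (by positivity), ← Real.rpow_mul hl0.le]
            ring
    calc ENNReal.ofReal (lam ^ (-(d : ℝ) - 1)) * (C *
          (ENNReal.ofReal (lam ^ (3 - p - ((d : ℝ) - 1) * (p - 2) / 2)) *
          ∫⁻ x, ‖f x‖ₑ ^ 2 * ka lam (fun y => ‖f y‖ₑ) x ^ (p - 2)))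
        ≤ ENNReal.ofReal (lam ^ (-(d : ℝ) - 1)) * (C *
          (ENNReal.ofReal (lam ^ (3 - p - ((d : ℝ) - 1) * (p - 2) / 2)) *
          (ENNReal.ofReal (lam ^ ((d : ℝ) + d * (p - 2))) *
          ∫⁻ x, ‖u x‖ₑ ^ 2 * (k2 (fun y => ‖u y‖ₑ) x) ^ (p - 2)))) := by gcongr
      _ = C * (ENNReal.ofReal (lam ^ (-(d : ℝ) - 1)) *
          ENNReal.ofReal (lam ^ (3 - p - ((d : ℝ) - 1) * (p - 2) / 2)) *
          ENNReal.ofReal (lam ^ ((d : ℝ) + d * (p - 2)))) *
          ∫⁻ x, ‖u x‖ₑ ^ 2 * (k2 (fun y => ‖u y‖ₑ) x) ^ (p - 2) := by ring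
      _ = _ := by
          rw [← ENNReal.ofReal_mul (by positivity), ← ENNReal.ofReal_mul (by positivity),
            ← Real.rpow_add hl0, ← Real.rpow_add hl0]
          congr 4
          ring
  · have h4 : ∫⁻ x, ‖f x‖ₑ ^ 2 * ka lam (fun y => ‖f y‖ₑ ^ (p - 2)) x ≤
        ENNReal.ofReal (lam ^ ((d : ℝ) + d)) *
          ∫⁻ x, ‖u x‖ₑ ^ 2 * k2 (fun y => ‖u y‖ₑ ^ (p - 2)) x := by
      rw [hcv, Real.rpow_add hl0, ENNReal.ofReal_mul (by positivity), mul_assoc]
      refine mul_le_mul' le_rfl ?_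
      rw [← lintegral_const_mul' _ _ ENNReal.ofReal_ne_top]
      refine lintegral_mono fun x => ?_
      simp only
      rw [hfu]
      have h5 := ka_le lam hl0 (fun y => ‖u y‖ₑ ^ (p - 2)) x
      calc ‖u x‖ₑ ^ 2 * ka lam (fun y => ‖f y‖ₑ ^ (p - 2)) (lam • x)
          ≤ ‖u x‖ₑ ^ 2 * (ENNReal.ofReal (lam ^ (d : ℝ)) * k2 (fun y => ‖u y‖ₑ ^ (p - 2)) x) :=
            mul_le_mul' le_rfl h5
        _ = _ := by ring
    calc ENNReal.ofReal (lam ^ (-(d : ℝ) - 1)) * (C *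
          (ENNReal.ofReal (lam ^ (((d : ℝ) - 1) * (p - 3) - ((d : ℝ) - 1) * (p - 2) / 2)) *
          ∫⁻ x, ‖f x‖ₑ ^ 2 * ka lam (fun y => ‖f y‖ₑ ^ (p - 2)) x))
        ≤ ENNReal.ofReal (lam ^ (-(d : ℝ) - 1)) * (C *
          (ENNReal.ofReal (lam ^ (((d : ℝ) - 1) * (p - 3) - ((d : ℝ) - 1) * (p - 2) / 2)) *
          (ENNReal.ofReal (lam ^ ((d : ℝ) + d)) *
          ∫⁻ x, ‖u x‖ₑ ^ 2 * k2 (fun y => ‖u y‖ₑ ^ (p - 2)) x))) := by gcongr
      _ = C * (ENNReal.ofReal (lam ^ (-(d : ℝ) - 1)) *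
          ENNReal.ofReal (lam ^ (((d : ℝ) - 1) * (p - 3) - ((d : ℝ) - 1) * (p - 2) / 2)) *
          ENNReal.ofReal (lam ^ ((d : ℝ) + d))) *
          ∫⁻ x, ‖u x‖ₑ ^ 2 * k2 (fun y => ‖u y‖ₑ ^ (p - 2)) x := by ring
      _ = _ := by
          rw [← ENNReal.ofReal_mul (by positivity), ← ENNReal.ofReal_mul (by positivity),
            ← Real.rpow_add hl0, ← Real.rpow_add hl0]
          congr 4
          ring

end Pool.Agent.H90.C1
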