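import Pool.Agent.H94.C1.Targets

/-!
Board c1_modules, module PIE: one frequency, data carried by a set.
-/

set_option autoImplicit false

namespace Pool.Agent.H90.C1

open MeasureTheory Set FourierTransform Pool.Agent.H82.KL Pool.Agent.H94.C1
open scoped ENNReal NNReal SchwartzMap

section

variable {d : ℕ}

theorem e_cont : Continuous e := by
  unfold e
  fun_prop

/-- the half wave operator is jointly measurable -/
theorem HP_meas (b : EE d → ℂ) (hb : Sym b) (ε lam : ℝ) (u : 𝓢(EE d, ℂ)) :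
    Measurable (fun q : ℝ × EE d => HP b ε lam q.1 u q.2) := by
  have hbc : Continuous b := hb.1.continuous
  have hu : Continuous (𝓕 (u : EE d → ℂ)) := by
    rw [← SchwartzMap.fourier_coe]
    exact (𝓕 u).continuous
  have hec := e_cont
  unfold HP H83.LS.MM
  have h1 : Continuous (fun z : (ℝ × EE d) × EE d =>
      e (inner ℝ z.1.2 z.2) * ((e (ε * z.1.1 * ‖z.2‖) * b (lam⁻¹ • z.2)) * 𝓕 (u : EE d → ℂ) z.2)) := by
    fun_prop
  exact (h1.stronglyMeasurable.integral_prod_right').measurable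

theorem sec_meas {F : ℝ → EE d → ℝ≥0∞} (h : Measurable (fun q : ℝ × EE d => F q.1 q.2))
    (t : ℝ) : Measurable (fun y => F t y) :=
  h.comp (measurable_prodMk_left (x := t))

theorem int_meas {F : ℝ → EE d → ℝ≥0∞} (h : Measurable (fun q : ℝ × EE d => F q.1 q.2)) :
    Measurable (fun t : ℝ => ∫⁻ y : EE d, F t y) :=
  h.lintegral_prod_right'

/-- the power of a finite sum -/
theorem sum_rpow {ι : Type} [Fintype ι] (p : ℝ) (hp : 0 < p) (x : ι → ℝ≥0∞) :
    (∑ J, x J) ^ p ≤ ((Fintype.card ι : ℝ≥0∞)) ^ p * ∑ J, x J ^ p := by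
  have h1 : ∀ J ∈ Finset.univ, x J ≤ (∑ J, x J ^ p) ^ (1 / p) := by
    intro J _
    calc x J = (x J ^ p) ^ (1 / p) := by
          rw [← ENNReal.rpow_mul, mul_one_div_cancel hp.ne', ENNReal.rpow_one]
      _ ≤ _ := by
          refine ENNReal.rpow_le_rpow ?_ (by positivity)
          exact Finset.single_le_sum (f := fun J => x J ^ p) (fun _ _ => by positivity)
            (Finset.mem_univ J)
  have h2 := Finset.sum_le_card_nsmul _ _ _ h1
  calc (∑ J, x J) ^ p ≤ ((Finset.univ : Finset ι).card • (∑ J, x J ^ p) ^ (1 / p)) ^ p :=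
        ENNReal.rpow_le_rpow h2 hp.le
    _ = _ := by
        rw [nsmul_eq_mul, ENNReal.mul_rpow_of_nonneg _ _ hp.le, ← ENNReal.rpow_mul,
          one_div_mul_cancel hp.ne', ENNReal.rpow_one, Finset.card_univ]

end

/-- PIE: one frequency, data carried by a set -/
theorem pf_PIE (hR : T_RES) (hH : T_HOL) (hD : T_DER) : T_PIE := by
  intro d K p a hd hp ha
  have hp0 : 0 < p := by linarith
  obtain ⟨b, hb, hbu⟩ := hD d K a ha
  choose C hC using fun J => hR d p (b J) hd hp (hb J)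
  refine ⟨(Fintype.card (Fin K → Fin d) : ℝ≥0) ^ p * ∑ J, C J, ?_⟩
  intro E S lam ε u hE hS hl hε hu0
  have hl0 : 0 < lam := by linarith
  obtain ⟨v, hv, hvs⟩ := hbu u
  set x : (Fin K → Fin d) → ℝ → EE d → ℝ≥0∞ := fun J t y => ‖HP (b J) ε lam t (v J) y‖ₑ with hx
  -- pointwise bound
  have h1 : ∀ (t : ℝ) (y : EE d), ‖HP a ε lam t u y‖ₑ ≤
      ENNReal.ofReal (lam ^ (-(K : ℝ))) * ∑ J, x J t y := by
    intro t y
    have h2 := hvs lam ε t y hl0
    have h3 : ‖(2 * (Real.pi : ℂ) * Complex.I * (lam : ℂ)) ^ K * HP a ε lam t u y‖ₑ ≤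
        ∑ J, x J t y := by
      rw [h2]
      exact enorm_sum_le _ _
    rw [enorm_mul] at h3
    have h4 : ENNReal.ofReal (lam ^ (K : ℝ)) ≤
        ‖(2 * (Real.pi : ℂ) * Complex.I * (lam : ℂ)) ^ K‖ₑ := by
      rw [← ofReal_norm]
      refine ENNReal.ofReal_le_ofReal ?_
      rw [norm_pow, norm_mul, norm_mul, norm_mul, Complex.norm_I, Complex.norm_real,
        Complex.norm_real, Real.norm_of_nonneg Real.pi_pos.le, Real.norm_of_nonneg hl0.le,
        Complex.norm_ofNat, Real.rpow_natCast, mul_one]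
      refine pow_le_pow_left₀ hl0.le ?_ K
      have := Real.pi_gt_three
      nlinarith
    calc ‖HP a ε lam t u y‖ₑ
        = ENNReal.ofReal (lam ^ (-(K : ℝ))) *
          (ENNReal.ofReal (lam ^ (K : ℝ)) * ‖HP a ε lam t u y‖ₑ) := by
          rw [← mul_assoc, ← ENNReal.ofReal_mul (by positivity), ← Real.rpow_add hl0,
            neg_add_cancel, Real.rpow_zero, ENNReal.ofReal_one, one_mul]
      _ ≤ _ := by
          refine mul_le_mul' le_rfl (le_trans ?_ h3)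
          exact mul_le_mul' h4 le_rfl
  have h2 : ∀ (t : ℝ) (y : EE d), ‖HP a ε lam t u y‖ₑ ^ p ≤
      ENNReal.ofReal (lam ^ (-(K * p : ℝ))) * ((Fintype.card (Fin K → Fin d) : ℝ≥0∞) ^ p *
        ∑ J, x J t y ^ p) := by
    intro t y
    calc ‖HP a ε lam t u y‖ₑ ^ p
        ≤ (ENNReal.ofReal (lam ^ (-(K : ℝ))) * ∑ J, x J t y) ^ p :=
          ENNReal.rpow_le_rpow (h1 t y) hp0.le
      _ = ENNReal.ofReal (lam ^ (-(K * p : ℝ))) * (∑ J, x J t y) ^ p := by
          rw [ENNReal.mul_rpow_of_nonneg _ _ hp0.le, ENNReal.ofReal_rpow_of_pos (by positivity),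
            ← Real.rpow_mul hl0.le, neg_mul]
      _ ≤ _ := mul_le_mul' le_rfl (sum_rpow p hp0 _)
  -- measurability
  have hm : ∀ J, Measurable (fun q : ℝ × EE d => x J q.1 q.2 ^ p) := fun J =>
    ((HP_meas (b J) (hb J) ε lam (v J)).enorm).pow_const p
  have hmy : ∀ J t, Measurable (fun y : EE d => x J t y ^ p) := fun J t =>
    sec_meas (F := fun t y => x J t y ^ p) (hm J) t
  have hmt : ∀ J, Measurable (fun t : ℝ => ∫⁻ y : EE d, x J t y ^ p) := fun J =>
    int_meas (F := fun t y => x J t y ^ p) (hm J)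
  have hcard : ((Fintype.card (Fin K → Fin d) : ℝ≥0∞)) ^ p ≠ ∞ := by
    exact ENNReal.rpow_ne_top_of_nonneg hp0.le (ENNReal.natCast_ne_top _)
  have h3 : ∫⁻ t in Icc (1 : ℝ) 2, ∫⁻ y : EE d, ‖HP a ε lam t u y‖ₑ ^ p ≤
      ENNReal.ofReal (lam ^ (-(K * p : ℝ))) * ((Fintype.card (Fin K → Fin d) : ℝ≥0∞) ^ p *
        ∑ J, ∫⁻ t in Icc (1 : ℝ) 2, ∫⁻ y : EE d, x J t y ^ p) := by
    calc ∫⁻ t in Icc (1 : ℝ) 2, ∫⁻ y : EE d, ‖HP a ε lam t u y‖ₑ ^ p
        ≤ ∫⁻ t in Icc (1 : ℝ) 2, ∫⁻ y : EE d, ENNReal.ofReal (lam ^ (-(K * p : ℝ))) *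
          ((Fintype.card (Fin K → Fin d) : ℝ≥0∞) ^ p * ∑ J, x J t y ^ p) :=
          lintegral_mono fun t => lintegral_mono fun y => h2 t y
      _ = _ := by
          have h4 : ∀ t : ℝ, ∫⁻ y : EE d, ENNReal.ofReal (lam ^ (-(K * p : ℝ))) *
              ((Fintype.card (Fin K → Fin d) : ℝ≥0∞) ^ p * ∑ J, x J t y ^ p) =
              ENNReal.ofReal (lam ^ (-(K * p : ℝ))) *
              ((Fintype.card (Fin K → Fin d) : ℝ≥0∞) ^ p * ∑ J, ∫⁻ y : EE d, x J t y ^ p) := by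
            intro t
            rw [lintegral_const_mul' _ _ ENNReal.ofReal_ne_top, lintegral_const_mul' _ _ hcard,
              lintegral_finsetSum _ fun J _ => hmy J t]
          simp only [h4]
          rw [lintegral_const_mul' _ _ ENNReal.ofReal_ne_top, lintegral_const_mul' _ _ hcard,
            lintegral_finsetSum _ fun J _ => hmt J]
  -- the terms
  have h4 : ∀ J, ∫⁻ t in Icc (1 : ℝ) 2, ∫⁻ y : EE d, x J t y ^ p ≤
      C J * (ENNReal.ofReal (lam ^ (((d : ℝ) - 1) * (p - 2) / 2)) *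
        (S ^ (min 1 (p - 2)) * ∫⁻ y, ‖iteratedFDeriv ℝ K u y‖ₑ ^ p)) := by
    intro J
    have h5 := hC J lam ε (v J) hl hε
    have hvJ : ∀ y, y ∉ E → v J y = 0 := by
      intro y hy
      rw [hv J y]
      have h6 : (u : EE d → ℂ) =ᶠ[nhds y] fun _ => 0 := by
        filter_upwards [hE.isOpen_compl.mem_nhds hy] with z hz
        exact hu0 z hz
      have h7 := (h6.iteratedFDeriv (𝕜 := ℝ) K).eq_of_nhds
      rw [h7]
      have h8 : iteratedFDeriv ℝ K (fun _ : EE d => (0 : ℂ)) = 0 := iteratedFDeriv_fun_zero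
      rw [h8]
      rfl
    have h6 := hH d p E S (v J) hp hE.measurableSet hS (v J).continuous.measurable hvJ
    have h7 : ∫⁻ y, ‖v J y‖ₑ ^ p ≤ ∫⁻ y, ‖iteratedFDeriv ℝ K u y‖ₑ ^ p := by
      refine lintegral_mono fun y => ENNReal.rpow_le_rpow ?_ hp0.le
      rw [hv J y, ← ofReal_norm, ← ofReal_norm]
      refine ENNReal.ofReal_le_ofReal ?_
      refine ((iteratedFDeriv ℝ K u y).le_opNorm _).trans (le_of_eq ?_)
      have h8 : ∀ i : Fin K, ‖(ei (J i) : EE d)‖ = 1 := fun i => by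
        simp
      rw [Finset.prod_congr rfl fun i _ => h8 i, Finset.prod_const_one, mul_one]
    calc ∫⁻ t in Icc (1 : ℝ) 2, ∫⁻ y : EE d, x J t y ^ p
        ≤ C J * ENNReal.ofReal (lam ^ (((d : ℝ) - 1) * (p - 2) / 2)) * KK p (v J) := h5
      _ ≤ C J * ENNReal.ofReal (lam ^ (((d : ℝ) - 1) * (p - 2) / 2)) *
          (S ^ (min 1 (p - 2)) * ∫⁻ y, ‖iteratedFDeriv ℝ K u y‖ₑ ^ p) := by
          refine mul_le_mul' le_rfl (h6.trans ?_)
          exact mul_le_mul' le_rfl h7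
      _ = _ := by ring
  refine h3.trans ?_
  calc ENNReal.ofReal (lam ^ (-(K * p : ℝ))) * ((Fintype.card (Fin K → Fin d) : ℝ≥0∞) ^ p *
        ∑ J, ∫⁻ t in Icc (1 : ℝ) 2, ∫⁻ y : EE d, x J t y ^ p)
      ≤ ENNReal.ofReal (lam ^ (-(K * p : ℝ))) * ((Fintype.card (Fin K → Fin d) : ℝ≥0∞) ^ p *
        ∑ J, (C J : ℝ≥0∞) * (ENNReal.ofReal (lam ^ (((d : ℝ) - 1) * (p - 2) / 2)) *
        (S ^ (min 1 (p - 2)) * ∫⁻ y, ‖iteratedFDeriv ℝ K u y‖ₑ ^ p))) := by
        refine mul_le_mul' le_rfl (mul_le_mul' le_rfl ?_)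
        exact Finset.sum_le_sum fun J _ => h4 J
    _ = ((Fintype.card (Fin K → Fin d) : ℝ≥0∞) ^ p * ∑ J, (C J : ℝ≥0∞)) *
        (ENNReal.ofReal (lam ^ (((d : ℝ) - 1) * (p - 2) / 2)) *
          ENNReal.ofReal (lam ^ (-(K * p : ℝ)))) * S ^ (min 1 (p - 2)) *
        ∫⁻ y, ‖iteratedFDeriv ℝ K u y‖ₑ ^ p := by
        rw [← Finset.sum_mul]
        ring
    _ = _ := by
        rw [← ENNReal.ofReal_mul (by positivity), ← Real.rpow_add hl0]
        congr 3
        push_cast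
        rw [ENNReal.coe_rpow_of_nonneg _ hp0.le]
        simp

end Pool.Agent.H90.C1
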