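import Pool.Agent.H94.C1.Targets

/-!
Board c1_modules, module HOL: Hölder's inequality and Schur's test.
-/

set_option autoImplicit false

namespace Pool.Agent.H90.C1

open MeasureTheory Set Pool.Agent.H82.KL Pool.Agent.H94.C1
open scoped ENNReal NNReal

section

variable {d : ℕ}

/-- Hölder's inequality with the kernel `|x-y|⁻²` on a set -/
theorem holder_kernel (p : ℝ) (hp : 2 < p) (E : Set (EE d)) (hE : MeasurableSet E) (κ : ℝ≥0∞)
    (hκ : ∀ x ∈ E, ∫⁻ y in E, (‖x - y‖ₑ ^ 2)⁻¹ ≤ κ) (a : EE d → ℝ≥0∞) (ha : Measurable a)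
    (ha0 : ∀ x, x ∉ E → a x = 0) :
    ∫⁻ x, ∫⁻ y, a x ^ 2 * a y ^ (p - 2) * (‖x - y‖ₑ ^ 2)⁻¹ ≤ κ * ∫⁻ x, a x ^ p := by
  have hp0 : 0 < p := by linarith
  have hp2 : 0 < p - 2 := by linarith
  set μE : Measure (EE d) := volume.restrict E with hμE
  set k : EE d × EE d → ℝ≥0∞ := fun z => (‖z.1 - z.2‖ₑ ^ 2)⁻¹ with hk
  have hkm : Measurable k := by rw [hk]; fun_prop
  have hkap : ∀ x ∈ E, ∫⁻ y, k (x, y) ∂μE ≤ κ := fun x hx => hκ x hx
  have hkap2 : ∀ y ∈ E, ∫⁻ x, k (x, y) ∂μE ≤ κ := by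
    intro y hy
    refine le_trans (le_of_eq ?_) (hkap y hy)
    apply lintegral_congr
    intro x
    rw [hk]
    simp only
    rw [enorm_sub_rev]
  set ν : Measure (EE d × EE d) := (μE.prod μE).withDensity k with hν
  have l1 : ∫⁻ x, ∫⁻ y, a x ^ 2 * a y ^ (p - 2) * (‖x - y‖ₑ ^ 2)⁻¹ =
      ∫⁻ z, (a z.1 ^ 2 * a z.2 ^ (p - 2)) ∂ν := by
    have hm1 : Measurable (fun z : EE d × EE d => a z.1 ^ 2 * a z.2 ^ (p - 2)) := by fun_prop
    rw [hν, lintegral_withDensity_eq_lintegral_mul _ hkm hm1,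
      lintegral_prod _ (hkm.mul hm1).aemeasurable, hμE, ← lintegral_indicator hE]
    apply lintegral_congr
    intro x
    by_cases hx : x ∈ E
    · rw [Set.indicator_of_mem hx, ← lintegral_indicator hE]
      apply lintegral_congr
      intro y
      by_cases hy : y ∈ E
      · rw [Set.indicator_of_mem hy]
        simp only [Pi.mul_apply, hk]
        ring
      · rw [Set.indicator_of_notMem hy, ha0 y hy, ENNReal.zero_rpow_of_pos hp2]
        simp
    · rw [Set.indicator_of_notMem hx]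
      simp [ha0 x hx]
  rw [l1]
  have hconj : (p / 2).HolderConjugate (p / (p - 2)) := by
    rw [Real.holderConjugate_iff]
    refine ⟨by linarith [(one_lt_div (by norm_num : (0 : ℝ) < 2)).mpr hp], ?_⟩
    rw [inv_div, inv_div]
    field_simp
    ring
  have hH := ENNReal.lintegral_mul_le_Lp_mul_Lq ν hconj (f := fun z : EE d × EE d => a z.1 ^ 2)
    (g := fun z : EE d × EE d => a z.2 ^ (p - 2)) (by fun_prop) (by fun_prop)
  simp only [Pi.mul_apply] at hH
  refine hH.trans ?_
  have f1 : ∀ z : EE d × EE d, (a z.1 ^ 2) ^ (p / 2) = a z.1 ^ p := by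
    intro z
    rw [← ENNReal.rpow_natCast, ← ENNReal.rpow_mul]
    congr 1
    push_cast
    field_simp
  have f2 : ∀ z : EE d × EE d, (a z.2 ^ (p - 2)) ^ (p / (p - 2)) = a z.2 ^ p := by
    intro z
    rw [← ENNReal.rpow_mul]
    congr 1
    field_simp
  simp_rw [f1, f2]
  have b1 : ∫⁻ z, a z.1 ^ p ∂ν ≤ κ * ∫⁻ x, a x ^ p := by
    have hm1 : Measurable (fun z : EE d × EE d => a z.1 ^ p) := by fun_prop
    rw [hν, lintegral_withDensity_eq_lintegral_mul _ hkm hm1,
      lintegral_prod _ (hkm.mul hm1).aemeasurable]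
    calc ∫⁻ x, ∫⁻ y, (k * fun z : EE d × EE d => a z.1 ^ p) (x, y) ∂μE ∂μE
        = ∫⁻ x, a x ^ p * ∫⁻ y, k (x, y) ∂μE ∂μE := by
          apply lintegral_congr
          intro x
          have hkx : Measurable (fun y : EE d => k (x, y)) := hkm.comp measurable_prodMk_left
          rw [← lintegral_const_mul _ hkx]
          apply lintegral_congr
          intro y
          simp only [Pi.mul_apply]
          ring
      _ ≤ ∫⁻ x, a x ^ p * κ ∂μE := by
          apply setLIntegral_mono' hE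
          intro x hx
          gcongr
          exact hkap x hx
      _ ≤ ∫⁻ x, a x ^ p * κ := lintegral_mono' Measure.restrict_le_self le_rfl
      _ = κ * ∫⁻ x, a x ^ p := by
          rw [lintegral_mul_const _ (by fun_prop), mul_comm]
  have b2 : ∫⁻ z, a z.2 ^ p ∂ν ≤ κ * ∫⁻ y, a y ^ p := by
    have hm1 : Measurable (fun z : EE d × EE d => a z.2 ^ p) := by fun_prop
    rw [hν, lintegral_withDensity_eq_lintegral_mul _ hkm hm1,
      lintegral_prod_symm _ (hkm.mul hm1).aemeasurable]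
    calc ∫⁻ y, ∫⁻ x, (k * fun z : EE d × EE d => a z.2 ^ p) (x, y) ∂μE ∂μE
        = ∫⁻ y, a y ^ p * ∫⁻ x, k (x, y) ∂μE ∂μE := by
          apply lintegral_congr
          intro y
          have hky : Measurable (fun x : EE d => k (x, y)) := hkm.comp measurable_prodMk_right
          rw [← lintegral_const_mul _ hky]
          apply lintegral_congr
          intro x
          simp only [Pi.mul_apply]
          ring
      _ ≤ ∫⁻ y, a y ^ p * κ ∂μE := by
          apply setLIntegral_mono' hE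
          intro y hy
          gcongr
          exact hkap2 y hy
      _ ≤ ∫⁻ y, a y ^ p * κ := lintegral_mono' Measure.restrict_le_self le_rfl
      _ = κ * ∫⁻ y, a y ^ p := by
          rw [lintegral_mul_const _ (by fun_prop), mul_comm]
  have e1 : 1 / (p / 2) = 2 / p := by rw [one_div, inv_div]
  have e2 : 1 / (p / (p - 2)) = (p - 2) / p := by rw [one_div, inv_div]
  rw [e1, e2]
  have h2p : 0 ≤ 2 / p := by positivity
  have h3p : 0 ≤ (p - 2) / p := by positivity
  calc (∫⁻ z, a z.1 ^ p ∂ν) ^ (2 / p) * (∫⁻ z, a z.2 ^ p ∂ν) ^ ((p - 2) / p)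
      ≤ (κ * ∫⁻ x, a x ^ p) ^ (2 / p) * (κ * ∫⁻ y, a y ^ p) ^ ((p - 2) / p) := by gcongr
    _ = _ := by
        rw [← ENNReal.rpow_add_of_nonneg _ _ h2p h3p]
        have : 2 / p + (p - 2) / p = 1 := by field_simp; ring
        rw [this, ENNReal.rpow_one]

/-- Schur's test for the kernel `|x-y|⁻²` on a set -/
theorem schur_kernel (p : ℝ) (hp : 2 < p) (E : Set (EE d)) (hE : MeasurableSet E) (κ : ℝ≥0∞)
    (hκ : ∀ x ∈ E, ∫⁻ y in E, (‖x - y‖ₑ ^ 2)⁻¹ ≤ κ) (a : EE d → ℝ≥0∞) (ha : Measurable a)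
    (ha0 : ∀ x, x ∉ E → a x = 0) :
    ∫⁻ x in E, (k2 a x) ^ p ≤ κ ^ p * ∫⁻ x, a x ^ p := by
  have hp0 : 0 < p := by linarith
  have hp1 : 0 < p - 1 := by linarith
  set k : EE d × EE d → ℝ≥0∞ := fun z => (‖z.1 - z.2‖ₑ ^ 2)⁻¹ with hk
  have hkm : Measurable k := by rw [hk]; fun_prop
  have hkx : ∀ x, Measurable (fun y : EE d => k (x, y)) := fun x =>
    hkm.comp measurable_prodMk_left
  have hkap2 : ∀ y ∈ E, ∫⁻ x in E, k (x, y) ≤ κ := by
    intro y hy
    refine le_trans (le_of_eq ?_) (hκ y hy)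
    apply lintegral_congr
    intro x
    rw [hk]
    simp only
    rw [enorm_sub_rev]
  have hconj : p.HolderConjugate (p / (p - 1)) := by
    rw [Real.holderConjugate_iff]
    refine ⟨by linarith, ?_⟩
    rw [inv_div]
    field_simp
    ring
  -- pointwise
  have h1 : ∀ x ∈ E, (k2 a x) ^ p ≤ κ ^ (p - 1) * ∫⁻ y in E, a y ^ p * k (x, y) := by
    intro x hx
    have e1 : k2 a x = ∫⁻ y, a y ∂((volume.restrict E).withDensity (fun y => k (x, y))) := by
      rw [lintegral_withDensity_eq_lintegral_mul _ (hkx x) ha, ← lintegral_indicator hE]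
      unfold k2
      apply lintegral_congr
      intro y
      by_cases hy : y ∈ E
      · rw [Set.indicator_of_mem hy]
        simp only [Pi.mul_apply, hk]
        ring
      · rw [Set.indicator_of_notMem hy, ha0 y hy, zero_mul]
    have hH := ENNReal.lintegral_mul_le_Lp_mul_Lq
      ((volume.restrict E).withDensity (fun y => k (x, y))) hconj (f := a)
      (g := fun _ => 1) ha.aemeasurable (by fun_prop)
    simp only [Pi.mul_apply, mul_one, ENNReal.one_rpow] at hH
    rw [← e1] at hH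
    have e2 : ∫⁻ y, a y ^ p ∂((volume.restrict E).withDensity (fun y => k (x, y))) =
        ∫⁻ y in E, a y ^ p * k (x, y) := by
      rw [lintegral_withDensity_eq_lintegral_mul _ (hkx x) (by fun_prop)]
      apply lintegral_congr
      intro y
      simp only [Pi.mul_apply]
      ring
    have e3 : ∫⁻ _, (1 : ℝ≥0∞) ∂((volume.restrict E).withDensity (fun y => k (x, y))) ≤ κ := by
      rw [lintegral_withDensity_eq_lintegral_mul _ (hkx x) (by fun_prop)]
      simp only [Pi.mul_apply, mul_one]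
      exact hκ x hx
    rw [e2] at hH
    calc (k2 a x) ^ p
        ≤ ((∫⁻ y in E, a y ^ p * k (x, y)) ^ (1 / p) *
          (∫⁻ _, (1 : ℝ≥0∞) ∂((volume.restrict E).withDensity (fun y => k (x, y)))) ^
            (1 / (p / (p - 1)))) ^ p := by gcongr
      _ ≤ ((∫⁻ y in E, a y ^ p * k (x, y)) ^ (1 / p) * κ ^ (1 / (p / (p - 1)))) ^ p := by
          have : 0 ≤ 1 / (p / (p - 1)) := by positivity
          gcongr
      _ = κ ^ (p - 1) * ∫⁻ y in E, a y ^ p * k (x, y) := by
          rw [ENNReal.mul_rpow_of_nonneg _ _ hp0.le, ← ENNReal.rpow_mul, ← ENNReal.rpow_mul]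
          have e4 : 1 / p * p = 1 := by field_simp
          have e5 : 1 / (p / (p - 1)) * p = p - 1 := by field_simp
          rw [e4, e5, ENNReal.rpow_one, mul_comm]
  calc ∫⁻ x in E, (k2 a x) ^ p
      ≤ ∫⁻ x in E, κ ^ (p - 1) * ∫⁻ y in E, a y ^ p * k (x, y) := setLIntegral_mono' hE h1
    _ = κ ^ (p - 1) * ∫⁻ x in E, ∫⁻ y in E, a y ^ p * k (x, y) := by
        rw [lintegral_const_mul]
        have : Measurable (fun z : EE d × EE d => a z.2 ^ p * k z) := by fun_prop
        exact this.lintegral_prod_right'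
    _ = κ ^ (p - 1) * ∫⁻ y in E, ∫⁻ x in E, a y ^ p * k (x, y) := by
        rw [lintegral_lintegral_swap]
        have : Measurable (fun z : EE d × EE d => a z.2 ^ p * k z) := by fun_prop
        exact this.aemeasurable
    _ ≤ κ ^ (p - 1) * ∫⁻ y in E, a y ^ p * κ := by
        refine mul_le_mul' le_rfl ?_
        refine setLIntegral_mono' hE fun y hy => ?_
        have hky : Measurable (fun x : EE d => k (x, y)) := hkm.comp measurable_prodMk_right
        rw [lintegral_const_mul _ hky]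
        gcongr
        exact hkap2 y hy
    _ ≤ κ ^ (p - 1) * ∫⁻ y, a y ^ p * κ := by
        refine mul_le_mul' le_rfl ?_
        exact lintegral_mono' Measure.restrict_le_self le_rfl
    _ = κ ^ p * ∫⁻ x, a x ^ p := by
        rw [lintegral_mul_const _ (by fun_prop)]
        have e6 : κ ^ p = κ ^ (p - 1) * κ := by
          conv_rhs => rw [← ENNReal.rpow_one κ]
          rw [← ENNReal.rpow_mul, one_mul, ← ENNReal.rpow_add_of_nonneg _ _ hp1.le zero_le_one]
          congr 1
          ring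
        rw [e6]
        ring

end

/-- HOL: Hölder's inequality and Schur's test -/
theorem pf_HOL : T_HOL := by
  intro d p E S u hp hE hS hu hu0
  have hp0 : 0 < p := by linarith
  have hp2 : 0 < p - 2 := by linarith
  have hum : Measurable (fun y => ‖u y‖ₑ) := hu.enorm
  have hue : ∀ x, x ∉ E → ‖u x‖ₑ = 0 := fun x hx => by rw [hu0 x hx, enorm_zero]
  unfold KK
  split_ifs with h3
  · -- `2 < p ≤ 3`
    rw [min_eq_right (by linarith)]
    have hkm : Measurable (k2 (fun y => ‖u y‖ₑ)) := by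
      have : Measurable (fun z : EE d × EE d => ‖u z.2‖ₑ * (‖z.1 - z.2‖ₑ ^ 2)⁻¹) := by fun_prop
      exact this.lintegral_prod_right'
    have hconj : (p / 2).HolderConjugate (p / (p - 2)) := by
      rw [Real.holderConjugate_iff]
      refine ⟨by linarith [(one_lt_div (by norm_num : (0 : ℝ) < 2)).mpr hp], ?_⟩
      rw [inv_div, inv_div]
      field_simp
      ring
    have l1 : ∫⁻ x, ‖u x‖ₑ ^ 2 * (k2 (fun y => ‖u y‖ₑ) x) ^ (p - 2) =
        ∫⁻ x in E, ‖u x‖ₑ ^ 2 * (k2 (fun y => ‖u y‖ₑ) x) ^ (p - 2) := by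
      rw [← lintegral_indicator hE]
      apply lintegral_congr
      intro x
      by_cases hx : x ∈ E
      · rw [Set.indicator_of_mem hx]
      · rw [Set.indicator_of_notMem hx, hue x hx]
        simp
    have hH := ENNReal.lintegral_mul_le_Lp_mul_Lq (volume.restrict E) hconj
      (f := fun x => ‖u x‖ₑ ^ 2) (g := fun x => (k2 (fun y => ‖u y‖ₑ) x) ^ (p - 2))
      (by fun_prop) (by fun_prop)
    simp only [Pi.mul_apply] at hH
    have f1 : ∀ x, (‖u x‖ₑ ^ 2) ^ (p / 2) = ‖u x‖ₑ ^ p := by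
      intro x
      rw [← ENNReal.rpow_natCast, ← ENNReal.rpow_mul]
      congr 1
      push_cast
      field_simp
    have f2 : ∀ x, ((k2 (fun y => ‖u y‖ₑ) x) ^ (p - 2)) ^ (p / (p - 2)) =
        (k2 (fun y => ‖u y‖ₑ) x) ^ p := by
      intro x
      rw [← ENNReal.rpow_mul]
      congr 1
      field_simp
    simp_rw [f1, f2] at hH
    have e1 : 1 / (p / 2) = 2 / p := by rw [one_div, inv_div]
    have e2 : 1 / (p / (p - 2)) = (p - 2) / p := by rw [one_div, inv_div]
    rw [e1, e2] at hH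
    have h2p : 0 ≤ 2 / p := by positivity
    have h3p : 0 ≤ (p - 2) / p := by positivity
    rw [l1]
    refine hH.trans ?_
    have hsch := schur_kernel p hp E hE S hS (fun y => ‖u y‖ₑ) hum hue
    have hres : ∫⁻ x in E, ‖u x‖ₑ ^ p ≤ ∫⁻ x, ‖u x‖ₑ ^ p :=
      lintegral_mono' Measure.restrict_le_self le_rfl
    calc (∫⁻ x in E, ‖u x‖ₑ ^ p) ^ (2 / p) *
          (∫⁻ x in E, (k2 (fun y => ‖u y‖ₑ) x) ^ p) ^ ((p - 2) / p)
        ≤ (∫⁻ x, ‖u x‖ₑ ^ p) ^ (2 / p) * (S ^ p * ∫⁻ x, ‖u x‖ₑ ^ p) ^ ((p - 2) / p) := by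
          gcongr
      _ = S ^ (p - 2) * ((∫⁻ x, ‖u x‖ₑ ^ p) ^ (2 / p) * (∫⁻ x, ‖u x‖ₑ ^ p) ^ ((p - 2) / p)) := by
          rw [ENNReal.mul_rpow_of_nonneg _ _ h3p, ← ENNReal.rpow_mul]
          have : p * ((p - 2) / p) = p - 2 := by field_simp
          rw [this]
          ring
      _ = _ := by
          rw [← ENNReal.rpow_add_of_nonneg _ _ h2p h3p]
          have : 2 / p + (p - 2) / p = 1 := by field_simp; ring
          rw [this, ENNReal.rpow_one]
  · -- `p > 3`
    rw [min_eq_left (by linarith), ENNReal.rpow_one]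
    have h := holder_kernel p hp E hE S hS (fun y => ‖u y‖ₑ) hum hue
    refine le_trans (le_of_eq ?_) h
    apply lintegral_congr
    intro x
    unfold k2
    have hm : Measurable (fun y : EE d => ‖u y‖ₑ ^ (p - 2) * (‖x - y‖ₑ ^ 2)⁻¹) := by fun_prop
    rw [← lintegral_const_mul _ hm]
    apply lintegral_congr
    intro y
    ring

end Pool.Agent.H90.C1
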